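import Mathlib
import Pool.Agent.H45.HMSO.Solve

/-!
# The minimum makespan of high-multiplicity `P||Cmax` is computed in time `f(d) L^O(1)`

There are a computable function `f`, a constant `c` and one (multi-stack) Turing machine which, for every
instance of `P||Cmax` given by the number of machines, the distinct processing times and the numbers of
jobs with these processing times, all in binary, writes the minimum makespan in binary after at most
`f(d) L^c` steps, `d` the number of distinct processing times, `L` the total bit length of the numbers.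
-/

set_option autoImplicit false

open Finset

namespace Pool.Agent.Results.MP_d1eab9_lc.LeastMakespan

/-- An instance: the number `m` of machines, and for each job type the pair (processing time, number of
jobs).  The processing times are distinct and all numbers are positive. -/
structure Inst where
  m : ℕ
  types : List (ℕ × ℕ)
  m_pos : 0 < m
  pos : ∀ q ∈ types, 0 < q.1 ∧ 0 < q.2
  distinct : (types.map Prod.fst).Nodup

/-- The jobs: the job number `k` of the job type number `i`. -/
abbrev Job (I : Inst) : Type := (i : Fin I.types.length) × Fin (I.types.get i).2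

/-- The processing time of a job. -/
def time (I : Inst) (a : Job I) : ℕ := (I.types.get a.1).1

/-- The makespan of the schedule which runs every job `a` on the machine `s a`. -/
def makespan (I : Inst) (s : Job I → Fin I.m) : ℕ :=
  univ.sup fun j : Fin I.m => ∑ a ∈ univ.filter (fun a : Job I => s a = j), time I a

/-- The minimum makespan. -/
noncomputable def Cmax (I : Inst) : ℕ := sInf {T | ∃ s : Job I → Fin I.m, makespan I s = T}

/-- The input length: the total bit length of the numbers. -/
def len (I : Inst) : ℕ := I.m.size + (I.types.map fun q => q.1.size + q.2.size).sum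

/-- The input word: the binary digits of the numbers, a separator after each number. -/
def word (I : Inst) : List (Option Bool) :=
  I.m.bits.map some ++ [none] ++
    I.types.flatMap fun q => q.1.bits.map some ++ [none] ++ q.2.bits.map some ++ [none]

theorem load_eq (I : Inst) (s : Job I → Fin I.m) (j : Fin I.m) :
    ∑ a ∈ univ.filter (fun a : Job I => s a = j), time I a =
      ∑ i : Fin I.types.length, (univ.filter (fun k : Fin (I.types.get i).2 => s ⟨i, k⟩ = j)).card *
        (I.types.get i).1 := by
  rw [Finset.sum_filter, Fintype.sum_sigma]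
  apply Finset.sum_congr rfl
  intro i _
  rw [← Finset.sum_filter]
  simp [time]

theorem feas_of_schedule (I : Inst) (s : Job I → Fin I.m) (T : ℕ) (h : makespan I s ≤ T) :
    Pool.HMS.Feas I.m T I.types := by
  refine ⟨fun i j => (univ.filter (fun k : Fin (I.types.get i).2 => s ⟨i, k⟩ = j)).card, ?_, ?_⟩
  · intro i
    have := Finset.card_eq_sum_card_fiberwise (f := fun k : Fin (I.types.get i).2 => s ⟨i, k⟩)
      (s := univ) (t := univ) (fun _ _ => Finset.mem_coe.2 (Finset.mem_univ _))
    rw [Finset.card_univ, Fintype.card_fin] at this
    exact this.symm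
  · intro j
    rw [← load_eq I s j]
    refine le_trans ?_ h
    exact Finset.le_sup (f := fun j : Fin I.m =>
      ∑ a ∈ univ.filter (fun a : Job I => s a = j), time I a) (Finset.mem_univ j)

theorem schedule_of_feas (I : Inst) (T : ℕ) (h : Pool.HMS.Feas I.m T I.types) :
    ∃ s : Job I → Fin I.m, makespan I s ≤ T := by
  obtain ⟨x, h1, h2⟩ := h
  have he : ∀ i : Fin I.types.length, Nonempty (Fin (I.types.get i).2 ≃ (j : Fin I.m) × Fin (x i j)) := by
    intro i
    apply Fintype.card_eq.1
    rw [Fintype.card_sigma, Fintype.card_fin, ← h1 i]
    simp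
  have e := fun i => (he i).some
  refine ⟨fun a => (e a.1 a.2).1, ?_⟩
  apply Finset.sup_le
  intro j _
  rw [load_eq]
  refine le_trans (le_of_eq ?_) (h2 j)
  apply Finset.sum_congr rfl
  intro i _
  congr 1
  have h3 : (univ.filter (fun k : Fin (I.types.get i).2 => (e i k).1 = j)).card =
      (univ.filter (fun y : (j : Fin I.m) × Fin (x i j) => y.1 = j)).card := by
    rw [← Finset.card_map (e i).toEmbedding]
    congr 1
    ext y
    simp only [mem_map, mem_filter, mem_univ, true_and, Equiv.coe_toEmbedding]
    constructor
    · rintro ⟨k, hk, rfl⟩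
      exact hk
    · intro hy
      exact ⟨(e i).symm y, by simpa using hy, by simp⟩
  rw [h3, Finset.card_filter, Fintype.sum_sigma]
  have h4 : ∀ j' : Fin I.m, (∑ _y : Fin (x i j'), if j' = j then 1 else 0) =
      if j' = j then x i j' else 0 := by
    intro j'
    split_ifs <;> simp
  simp only [h4]
  simp

theorem feas_iff (I : Inst) (T : ℕ) : Pool.HMS.Feas I.m T I.types ↔ Cmax I ≤ T := by
  constructor
  · intro h
    obtain ⟨s, hs⟩ := schedule_of_feas I T h
    have h1 : makespan I s ∈ {T | ∃ s : Job I → Fin I.m, makespan I s = T} := ⟨s, rfl⟩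
    exact (Nat.sInf_le h1).trans hs
  · intro h
    have hne : {T | ∃ s : Job I → Fin I.m, makespan I s = T}.Nonempty :=
      ⟨makespan I (fun _ => ⟨0, I.m_pos⟩), (fun _ => ⟨0, I.m_pos⟩), rfl⟩
    obtain ⟨s, hs⟩ := Nat.sInf_mem hne
    exact feas_of_schedule I s T (hs.le.trans h)

theorem size_pos {n : ℕ} (h : 0 < n) : 0 < n.size := Nat.size_pos.2 h

theorem flat_len (l : List (ℕ × ℕ)) (h : ∀ q ∈ l, 0 < q.1 ∧ 0 < q.2) :
    (l.flatMap fun q : ℕ × ℕ => q.1.bits.map some ++ ([none] : List (Option Bool)) ++
      q.2.bits.map some ++ [none]).length ≤ 2 * (l.map fun q => q.1.size + q.2.size).sum := by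
  induction l with
  | nil => simp
  | cons q l ih =>
    have h1 := ih (fun q hq => h q (List.mem_cons_of_mem _ hq))
    have h2 := h q List.mem_cons_self
    have h3 := size_pos h2.1
    have h4 := size_pos h2.2
    rw [List.flatMap_cons, List.length_append, List.map_cons, List.sum_cons]
    simp only [List.length_append, List.length_map, List.length_singleton, Nat.size_eq_bits_len]
    omega

theorem word_len (I : Inst) : (word I).length ≤ 2 * len I := by
  have h1 := flat_len I.types I.pos
  have h2 := size_pos I.m_pos
  unfold word len
  rw [List.length_append]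
  simp only [List.length_append, List.length_map, List.length_singleton, Nat.size_eq_bits_len] at *
  omega

/-- High-multiplicity `P||Cmax` is fixed-parameter tractable in the number of job types. -/
theorem result : ∃ (f : ℕ → ℕ) (c : ℕ) (M : Turing.FinTM2) (ei : M.Γ M.k₀ ≃ Option Bool)
    (eo : M.Γ M.k₁ ≃ Bool), Computable f ∧ ∀ I : Inst,
      Nonempty (Turing.TM2OutputsInTime M ((word I).map ei.symm)
        (some ((Cmax I).bits.map eo.symm)) (f I.types.length * len I ^ c)) := by
  obtain ⟨f, hf, c, M, ei, eo, h⟩ := Pool.HMS.Opt.opt_thm
  refine ⟨fun k => f k * 2 ^ c, c, M, ei, eo, ?_, fun I => ?_⟩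
  · exact (Primrec.nat_mul.to_comp).comp hf (Computable.const _)
  · have h1 := h I.m I.types (Cmax I) (feas_iff I)
    have e : (I.types.map Prod.fst).toFinset.card = I.types.length := by
      rw [List.toFinset_card_of_nodup I.distinct, List.length_map]
    rw [e] at h1
    refine Pool.HMS.T76.outputs_mono h1 ?_
    have h2 : (Pool.HMS.Opt.inpW I.m I.types).length ≤ 2 * len I := word_len I
    calc f I.types.length * (Pool.HMS.Opt.inpW I.m I.types).length ^ c
        ≤ f I.types.length * (2 * len I) ^ c :=
          Nat.mul_le_mul_left _ (Nat.pow_le_pow_left h2 c)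
      _ = f I.types.length * 2 ^ c * len I ^ c := by rw [mul_pow]; ring

end Pool.Agent.Results.MP_d1eab9_lc.LeastMakespan
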